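import Mathlib
import Pool.Agent.V7H52.GX.Final

set_option autoImplicit false

/-!
# MP_5e7226_co: bodies with homothetic sections parallel to the blocks

Let `L i ⊆ ℝ^(m i)`, `m i ≥ 1`, `i = 1, ..., r`, be convex bodies with the interior point `0` and the
gauges `g_i`, and let `K` be a convex body in `ℝ^(m 1) ⊕ ... ⊕ ℝ^(m r) ⊕ ℝ^e`, `r ≥ 1`, `e ≥ 1`, of
dimension `d = ∑ m i + e`, with the interior point `o`, such that it depends only on
`g_1 (x_1 - o_1), ..., g_r (x_r - o_r)` and on the last part `x₀` whether `x` belongs to `K`. Nothing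
is assumed about the last part: for `r = 1` these are the bodies
`{(x₁, x₀) : x₁ ∈ o₁ + f(x₀) L, x₀ ∈ C}` with a concave function `f ≥ 0` on a convex body `C` in `ℝ^e`.
Let `s(L i, 0) ≤ N i`, let `P = ∏ (N i + 1)` and let `K₀` be the section of `K` by the flat through `o`
parallel to `ℝ^e`.

1. `s(K, o) ≤ P s(K₀, o)`.
2. `s(K, o) ≤ (P - 1) 2 ^ e` if `K₀` is a cross-body centred at `o`. So `s(K, o) ≤ 2 (P - 1)` for
   `e = 1`: if `r = e = 1` then `s(K, o) ≤ 2 s(L, 0)`.
3. If `P ≤ 2 ^ (∑ m i)`, for instance if `s(L i, 0) < 2 ^ (m i)` for all `i` (which the conjecture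
   predicts unless `L i` is a cross-body with centre `0`), and `e ≤ 2` or the conjecture is true
   for `(K₀, o)`, then `s(K, o) < 2 ^ d`: both parts of the conjecture are true for `(K, o)`.
4. If `r = 1`, `e ≤ m 1`, `s(L, 0) ≤ 2 ^ (m 1)`, and `e ≤ 2` or the conjecture is true for `(K₀, o)`,
   then `s(K, o) ≤ 2 ^ d`.
5. `s(K, o) < 2 ^ d`, with no assumption on `K₀`, if `3 e log (2 e² + 2 e + 1) P < 2 ^ (∑ m i)`.

The starting file `BlockwiseGaugeInvariant` is about the case `e = 0`.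

The proof, for `o = 0`, uses the maps `z ↦ g_i(z) y`, `g_i(y) = 1`, of the blocks: they are
continuous and positively homogeneous, and they map `K` into itself. The points `z` which maximise
`⟪u, ·⟫` on `{g z}` are the multiples of the points of the face of `L i` with the normal `u`, so the
normal vectors of hyperplanes which separate the faces of `L i` from `0` are test vectors: for each
`u ≠ 0` one of them is positive on all these points. For a normal `u` of `K` take `w` with the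
components `w i` a test vector for `u i` if `u i ≠ 0`, and `w i = 0` if `u i = 0`, and the last
component `δ w₀` with a vector `w₀` that separates the face of `K₀` with the normal `u₀`; a limit
argument shows that one small `δ` is enough for all `u`. For (2) one vector can be left out for each
facet of the cross-body `K₀`.
-/

namespace Pool.Agent.Results.MP_5e7226_co.GaugeBlocksH52

open scoped InnerProductSpace
open Pool.Agent.Results.MP_5e7226_co.ExtremePointsInFlats (BothParts)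
open Pool.Agent.V7H52.GX (Space SeparatedBy section₀ Bounds)

/-- the maps `z ↦ g(z) y`, `g(y) = 1` -/
def maps {E : Type*} [NormedAddCommGroup E] [InnerProductSpace ℝ E] (L : Set E) : Set (E → E) :=
  {g | ∃ y, gauge L y = 1 ∧ g = fun z => gauge L z • y}

section

variable {E : Type*} [NormedAddCommGroup E] [InnerProductSpace ℝ E] [FiniteDimensional ℝ E]
  {L : Set E}

omit [FiniteDimensional ℝ E] in
theorem gauge_pos' (hLc : IsCompact L) (h0 : (0 : E) ∈ interior L) {z : E} (hz : z ≠ 0) :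
    0 < gauge L z :=
  (gauge_pos (absorbent_nhds_zero (mem_interior_iff_mem_nhds.1 h0)) (hLc.isVonNBounded ℝ)).2 hz

omit [FiniteDimensional ℝ E] in
theorem hom_maps (hL : Convex ℝ L) (h0 : (0 : E) ∈ interior L) :
    Pool.Agent.V7H52.GX.Hom (maps L) := by
  rintro g ⟨y, hy, rfl⟩
  refine ⟨?_, fun c z hc => ?_⟩
  · exact (continuous_gauge hL (mem_interior_iff_mem_nhds.1 h0)).smul continuous_const
  · simp only
    rw [gauge_smul_of_nonneg hc.le, smul_eq_mul, mul_smul]

omit [FiniteDimensional ℝ E] in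
theorem moving_maps (hLc : IsCompact L) (h0 : (0 : E) ∈ interior L) :
    Pool.Agent.V7H52.GX.Moving (maps L) := by
  intro u z hu hz
  have h1 := gauge_pos' hLc h0 hu
  have h2 := gauge_pos' hLc h0 hz
  refine ⟨_, ⟨(gauge L u)⁻¹ • u, ?_, rfl⟩, ?_⟩
  · rw [gauge_smul_of_nonneg (by positivity), smul_eq_mul, inv_mul_cancel₀ h1.ne']
  · rw [inner_smul_right, inner_smul_right, real_inner_self_eq_norm_sq]
    have : 0 < ‖u‖ := norm_pos_iff.2 hu
    positivity

omit [FiniteDimensional ℝ E] in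
theorem tests_maps [Nontrivial E] (hL : Convex ℝ L) (hLc : IsCompact L)
    (h0 : (0 : E) ∈ interior L) {N : ℕ} (hN : SeparatedBy L 0 N) :
    ∃ D : Finset E, D.card ≤ N ∧ Pool.Agent.V7H52.GX.HasTests (maps L) D := by
  classical
  obtain ⟨-, D, -, hD1, hD2⟩ := hN.dirs hLc ⟨0, interior_subset h0⟩
  refine ⟨D.erase 0, (Finset.card_erase_le).trans hD1, by simp, fun u hu => ?_⟩
  obtain ⟨w, hw, h1⟩ := hD2 u hu
  refine ⟨w, Finset.mem_erase.2 ⟨?_, hw⟩, fun z hz hmax => ?_⟩
  · rintro rfl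
    obtain ⟨x, hx, hm⟩ := hLc.exists_isMaxOn ⟨0, interior_subset h0⟩
      (f := fun x => ⟪u, x⟫_ℝ) (by fun_prop)
    have h2 := h1 x ⟨hx, fun y hy => hm hy⟩
    rw [inner_zero_left] at h2
    exact lt_irrefl _ h2
  · have hgz := gauge_pos' hLc h0 hz
    have hzL : (gauge L z)⁻¹ • z ∈ L := by
      have h2 : gauge L ((gauge L z)⁻¹ • z) ≤ 1 := by
        rw [gauge_smul_of_nonneg (by positivity), smul_eq_mul, inv_mul_cancel₀ hgz.ne']
      rwa [gauge_le_one_iff_mem_closure hL (mem_interior_iff_mem_nhds.1 h0),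
        hLc.isClosed.closure_eq] at h2
    -- the values on the boundary of `L`
    have hb : ∀ y, gauge L y = 1 → ⟪u, y⟫_ℝ ≤ ⟪u, (gauge L z)⁻¹ • z⟫_ℝ := by
      intro y hy
      have h2 := hmax _ ⟨y, hy, rfl⟩
      rw [inner_smul_right] at h2 ⊢
      rw [inv_mul_eq_div, le_div_iff₀ hgz]
      linarith
    have hpos : 0 ≤ ⟪u, (gauge L z)⁻¹ • z⟫_ℝ := by
      have hgu := gauge_pos' hLc h0 hu
      refine le_trans ?_ (hb ((gauge L u)⁻¹ • u) ?_)
      · rw [inner_smul_right, real_inner_self_eq_norm_sq]; positivity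
      · rw [gauge_smul_of_nonneg (by positivity), smul_eq_mul, inv_mul_cancel₀ hgu.ne']
    have hmx : Pool.Agent.V7H52.GX.Mx L u ((gauge L z)⁻¹ • z) := by
      refine ⟨hzL, fun y hy => ?_⟩
      rcases eq_or_ne y 0 with rfl | hy0
      · rw [inner_zero_right]; exact hpos
      have hgy := gauge_pos' hLc h0 hy0
      have hgy1 : gauge L y ≤ 1 := gauge_le_one_of_mem hy
      have h2 := hb ((gauge L y)⁻¹ • y) (by
        rw [gauge_smul_of_nonneg (by positivity), smul_eq_mul, inv_mul_cancel₀ hgy.ne'])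
      rw [inner_smul_right _ y, inv_mul_eq_div, div_le_iff₀ hgy] at h2
      refine h2.trans ?_
      nlinarith
    have h2 := h1 _ hmx
    rw [inner_smul_right] at h2
    exact (mul_pos_iff_of_pos_left (inv_pos.2 hgz)).1 h2

end

/-- **Main theorem.** -/
theorem result (r : ℕ) (hr : 1 ≤ r) (m : Fin r → ℕ) (hm : ∀ i, 1 ≤ m i) (e : ℕ) (he : 1 ≤ e)
    (L : ∀ i, Set (EuclideanSpace ℝ (Fin (m i)))) (hL : ∀ i, Convex ℝ (L i))
    (hLc : ∀ i, IsCompact (L i)) (hL0 : ∀ i, 0 ∈ interior (L i)) (N : Fin r → ℕ)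
    (hN : ∀ i, SeparatedBy (L i) 0 (N i))
    (K : Set (Space m e)) (hK : Convex ℝ K) (hKc : IsCompact K) (o : Space m e)
    (ho : o ∈ interior K)
    (hinv : ∀ x ∈ K, ∀ y : Space m e, y.snd = x.snd →
      (∀ i, gauge (L i) (y.fst i - o.fst i) = gauge (L i) (x.fst i - o.fst i)) → y ∈ K) :
    Bounds K o (∏ i, (N i + 1)) ∧
    ((∀ i, N i < 2 ^ m i) → (e ≤ 2 ∨ BothParts (section₀ K o) o.snd) →
      SeparatedBy K o (2 ^ (∑ i, m i + e) - 1)) ∧
    (r = 1 → (∀ i, N i ≤ 2 ^ m i ∧ e ≤ m i) → (e ≤ 2 ∨ BothParts (section₀ K o) o.snd) →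
      SeparatedBy K o (2 ^ (∑ i, m i + e))) := by
  classical
  have hE : ∀ i, Nontrivial (EuclideanSpace ℝ (Fin (m i))) := fun i => by
    have : Nonempty (Fin (m i)) := ⟨⟨0, hm i⟩⟩
    infer_instance
  choose D hDc hD using fun i => tests_maps (hL i) (hLc i) (hL0 i) (hN i)
  have hinv' : Pool.Agent.V7H52.GX.InvAt (Pool.Agent.V7H52.GX.dec m e) K o
      fun i => maps (L i) := by
    rintro i _ ⟨z, hz, rfl⟩ x hx y h1 h2 h3
    refine hinv x hx y h3 fun j => ?_
    by_cases hj : j = i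
    · subst hj
      have h4 : y.fst j - o.fst j = gauge (L j) (x.fst j - o.fst j) • z := h1
      rw [h4, gauge_smul_of_nonneg (gauge_nonneg _), smul_eq_mul, hz, mul_one]
    · have h4 : y.fst j = x.fst j := h2 j hj
      rw [h4]
  have hb : Bounds K o (∏ i, (N i + 1)) :=
    Pool.Agent.V7H52.GX.bounds hr hm he (fun i => hom_maps (hL i) (hL0 i))
      (fun i => moving_maps (hLc i) (hL0 i)) hD hK hKc ho hinv'
      (Finset.prod_le_prod' fun i _ => Nat.succ_le_succ (hDc i))
  refine ⟨hb, fun h1 hor => hb.2.2.2.1 ?_ hor, fun hr1 h1 hor => hb.2.2.2.2.1 ?_ ?_ hor⟩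
  · rw [← Finset.prod_pow_eq_pow_sum]
    exact Finset.prod_le_prod' fun i _ => h1 i
  · subst hr1
    simp only [Finset.univ_unique, Fin.default_eq_zero, Fin.isValue, Finset.prod_singleton,
      Finset.sum_singleton, add_tsub_cancel_right]
    exact (h1 0).1
  · subst hr1
    simp only [Finset.univ_unique, Fin.default_eq_zero, Fin.isValue, Finset.prod_singleton,
      Finset.sum_singleton]
    obtain ⟨h2, h3⟩ := h1 0
    have h4 : 2 ^ e ≤ 2 ^ m 0 := Nat.pow_le_pow_right (by norm_num) h3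
    have h5 : 1 ≤ 2 ^ e := Nat.one_le_two_pow
    calc (N 0 + 1) * (2 ^ e - 1) ≤ (2 ^ m 0 + 1) * (2 ^ e - 1) :=
          Nat.mul_le_mul_right _ (by omega)
      _ = 2 ^ m 0 * 2 ^ e - 2 ^ m 0 + (2 ^ e - 1) := by
          rw [add_mul, one_mul, Nat.mul_sub, mul_one]
      _ ≤ 2 ^ (m 0 + e) := by
          rw [pow_add]
          have h6 : 2 ^ m 0 ≤ 2 ^ m 0 * 2 ^ e := Nat.le_mul_of_pos_right _ (by omega)
          omega

end Pool.Agent.Results.MP_5e7226_co.GaugeBlocksH52
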