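import Pool.Agent.V7H11.NC.Final

set_option autoImplicit false

/-!
# The conjecture, with the equality case, in a neighbourhood of the cross-bodies which does not
# depend on the dimension

Let `C` be a cross-body centred at `o`, with the vertices `o + v i` and `o - t i • v i`, and let `K`
be a convex body in `C` which contains the parts `o + v i / (1 + δ h i)` and
`o - v i / (1 / t i + δ h i)`, `h i = (1 + 1 / t i) / 2`, of its arms (for `t i = 1`: the points
`o ± v i / (1 + δ)`; in general it is enough that `K` contains the image of `C` under the homothety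
with centre `o` and ratio `1 / (1 + δ / 2)`). Nothing else is assumed about `K`.

* If `δ ≤ 1 / 6`, in any dimension, the whole assertion of the problem is true: `2 ^ d - 1`
  hyperplanes suffice unless `K` is itself a cross-body centred at `o`.
* If `δ < 1`, then `2 ^ d` hyperplanes suffice (this part is easy).

For the polar body, or the covering and illumination problem: if a convex body `M` contains the
parallelotope `B` and is contained in the homothetic parallelotope `(1 + δ) B` with the same centre,
`δ ≤ 1 / 6`, then `M` is covered by `2 ^ d - 1` translates of its interior, unless `M` is a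
parallelotope.

Livshyts and Tikhomirov (The cube is a strict local maximizer for the illumination number) prove
this for all convex bodies in some neighbourhood of the cube which is not specified and depends on
the dimension.

The proof, for `[-1, 1]^d ⊆ M ⊆ [-1 - δ, 1 + δ]^d`.

1. If `x` is a point of `M` with the sign pattern `σ` and `y` an outer normal at `x`, then
   `y · x ≥ ‖y‖_1` shows that the negative part of `σ y` is at most `δ` times the positive part.
   So the direction `-σ` illuminates `x`, and also the directions obtained from it by reducing some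
   of its coordinates by a factor `θ > δ`.
2. To spare the direction `-σ`, reduce the `i`-th coordinate of the direction of the neighbour
   `σ^(i)` of `σ` by the factor `θ = 0.17`. These directions illuminate all points with the
   pattern `σ` except for those which have normals close to `σ_i e_i` for all `i`. So if there is
   no such point for some `σ`, then `2 ^ d - 1` directions suffice. Otherwise there is exactly one
   such point `x_σ` for each `σ`.
3. Let `σ` and `τ` be neighbours, `σ_k = 1`, `τ_k = -1`. If a translate of the segment from `x_τ` to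
   `x_σ` lies in the interior of `M`, deep inside with respect to the coordinates other than the
   `k`-th, then the translation vector is a direction which illuminates `x_σ`, `x_τ` and all
   points between them which are not illuminated by the (reduced) directions of the other
   neighbours of `σ` and `τ`; so `2 ^ d - 1` directions suffice.
4. Otherwise let `T` and `Z` be the points of the boundary of `M` on the `k`-th axis, `n` and `n'`
   supporting functionals there with the `k`-th coefficients `1` and `-1`, and `Γ` the largest value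
   of `n(T) - n(x_σ)`, `σ_k = 1`. Comparing the segment from `x_τ` to `x_σ` with the segment which
   begins at `Z` and is parallel to it up to its `k`-th coordinate, for the pattern given by the
   signs of the coefficients of `n + n'`, one gets a bound for `‖n + n'‖_1` by a small multiple of
   `Γ`, and then `Γ ≤ c Γ` with `c < 1`. So `Γ = 0` and `n' = -n`: all `x_σ` lie on two parallel
   supporting hyperplanes, according to the sign `σ_k`. If this is so for all `k`, then `M` is a
   parallelotope.
-/

open scoped InnerProductSpace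

namespace Pool.Agent.Results.MP_5e7226_co.NearCrossBodiesH11

/-- `N` hyperplanes `{x | ⟪w i, x⟫ = b i}` are enough to separate every face of `K` (the set of the
maximum points of a linear functional `⟪u, ·⟫`, `u ≠ 0`, on `K`) strictly from `o`. -/
def Separated {d : ℕ} (N : ℕ) (K : Set (EuclideanSpace ℝ (Fin d)))
    (o : EuclideanSpace ℝ (Fin d)) : Prop :=
  ∃ w : Fin N → EuclideanSpace ℝ (Fin d), ∃ b : Fin N → ℝ,
    ∀ u x₀ : EuclideanSpace ℝ (Fin d), u ≠ 0 → x₀ ∈ K → (∀ y ∈ K, ⟪u, y⟫_ℝ ≤ ⟪u, x₀⟫_ℝ) →
      ∃ i, ⟪w i, o⟫_ℝ < b i ∧ ∀ x ∈ K, ⟪u, x⟫_ℝ = ⟪u, x₀⟫_ℝ → b i < ⟪w i, x⟫_ℝ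

/-- `M` is covered by at most `N` translates of its interior. -/
def Covered {d : ℕ} (N : ℕ) (M : Set (EuclideanSpace ℝ (Fin d))) : Prop :=
  ∃ T : Finset (EuclideanSpace ℝ (Fin d)), T.card ≤ N ∧
    M ⊆ ⋃ t ∈ T, (fun x => t + x) '' interior M

/-- **Theorem.** (1) Let `K` be a convex body with the interior point `o`, contained in the
cross-body with the vertices `o + v i`, `o - t i • v i`, and let it contain the points
`o + v i / (1 + δ h i)` and `o - v i / (1 / t i + δ h i)`, `h i = (1 + 1 / t i) / 2`. If `δ < 1` then
`2 ^ d` hyperplanes separate all faces of `K` strictly from `o`; if `δ ≤ 1 / 6`, then `2 ^ d - 1`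
hyperplanes do this or `K` is a cross-body centred at `o`. (2) Let `M` be a convex body which
contains the parallelotope `{c + ∑ a i • w i : |a i| ≤ 1}` and is contained in
`{c + ∑ a i • w i : |a i| ≤ 1 + δ}`. If `δ < 1` then `M` is covered by `2 ^ d` translates of its
interior; if `δ ≤ 1 / 6` then it is covered by `2 ^ d - 1` translates of its interior or it is a
parallelotope. -/
theorem result :
    (∀ (d : ℕ), 1 ≤ d → ∀ (K : Set (EuclideanSpace ℝ (Fin d))), Convex ℝ K → IsCompact K →
      ∀ o ∈ interior K, ∀ (v : Fin d → EuclideanSpace ℝ (Fin d)) (t : Fin d → ℝ),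
      LinearIndependent ℝ v → (∀ i, 0 < t i) → ∀ δ : ℝ, 0 ≤ δ →
      K ⊆ convexHull ℝ (⋃ i, ({o + v i, o - t i • v i} : Set (EuclideanSpace ℝ (Fin d)))) →
      (∀ i, o + (1 + δ * ((1 + 1 / t i) / 2))⁻¹ • v i ∈ K ∧
        o - (1 / t i + δ * ((1 + 1 / t i) / 2))⁻¹ • v i ∈ K) →
      (δ < 1 → Separated (2 ^ d) K o) ∧
      (δ ≤ 1 / 6 → ¬ Separated (2 ^ d - 1) K o →
        ∃ (v' : Fin d → EuclideanSpace ℝ (Fin d)) (t' : Fin d → ℝ),
          LinearIndependent ℝ v' ∧ (∀ i, 0 < t' i) ∧
            K = convexHull ℝ
              (⋃ i, ({o + v' i, o - t' i • v' i} : Set (EuclideanSpace ℝ (Fin d)))))) ∧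
    (∀ (d : ℕ) (M : Set (EuclideanSpace ℝ (Fin d))), Convex ℝ M → IsCompact M →
      ∀ (c : EuclideanSpace ℝ (Fin d)) (w : Fin d → EuclideanSpace ℝ (Fin d)),
      LinearIndependent ℝ w → ∀ δ : ℝ, 0 ≤ δ →
      (∀ a : Fin d → ℝ, (∀ i, |a i| ≤ 1) → c + ∑ i, a i • w i ∈ M) →
      (∀ x ∈ M, ∃ a : Fin d → ℝ, (∀ i, |a i| ≤ 1 + δ) ∧ x = c + ∑ i, a i • w i) →
      (δ < 1 → Covered (2 ^ d) M) ∧
      (δ ≤ 1 / 6 → ¬ Covered (2 ^ d - 1) M →
        ∃ (p : EuclideanSpace ℝ (Fin d)) (w' : Fin d → EuclideanSpace ℝ (Fin d)),
          LinearIndependent ℝ w' ∧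
            M = {x | ∃ a : Fin d → ℝ, (∀ i, 0 ≤ a i ∧ a i ≤ 1) ∧ x = p + ∑ i, a i • w' i})) := by
  refine ⟨?_, ?_⟩
  · intro d hd K hK hKc o ho v t hv ht δ hδ0 hKC hin
    obtain ⟨h1, h2⟩ := Pool.Agent.V7H11.NC.separation hd hK hKc ho v t hv ht hδ0 hKC hin
    refine ⟨h1, fun hδ hno => ?_⟩
    rcases h2 hδ with h3 | ⟨v', t', hv', ht', hK'⟩
    · exact absurd h3 hno
    · refine ⟨v', t', hv', ht', hK'.trans (congrArg _ ?_)⟩
      ext x
      simp only [Set.mem_union, Set.mem_range, Set.mem_iUnion, Set.mem_insert_iff,
        Set.mem_singleton_iff]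
      constructor
      · rintro (⟨i, rfl⟩ | ⟨i, rfl⟩)
        · exact ⟨i, Or.inl rfl⟩
        · exact ⟨i, Or.inr rfl⟩
      · rintro ⟨i, rfl | rfl⟩
        · exact Or.inl ⟨i, rfl⟩
        · exact Or.inr ⟨i, rfl⟩
  · intro d M hM hMc c w hw δ hδ0 h1 h2
    obtain ⟨h3, h4⟩ := Pool.Agent.V7H11.NC.covering hM hMc c w hw hδ0 h1 h2
    exact ⟨h3, fun hδ hno => (h4 hδ).resolve_left hno⟩

end Pool.Agent.Results.MP_5e7226_co.NearCrossBodiesH11
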