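import Pool.Agent.V7H11.NP.Final

set_option autoImplicit false

/-!
# Convex bodies close to joins of planar convex bodies (to products of planar convex bodies)

Let `V 1, ..., V r` be linearly independent subspaces of dimensions one and two which span `E^d`,
and let `C i` be compact subsets of `V i` such that the join `C = conv (C 1 ∪ ... ∪ C r)` has the
interior point `0`. For segments `C i` these are the cross-bodies. We show that there is an ABSOLUTE
constant `δ > 0` such that the whole assertion of the problem is true for all pairs `(K, o)` with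
`o + (1 + δ)⁻¹ C ⊆ K ⊆ o + C`, for every such join `C` in every dimension: `2 ^ d` hyperplanes
suffice, and `2 ^ d - 1` suffice unless `K` is a cross-body centred at `o`. Nothing else is assumed
about `K`.

The covering form: let `P = Q 1 + ... + Q r` be a product of planar convex bodies and segments
(`Q i ⊆ V i`). If `P ⊆ M ⊆ c + (1 + δ) P` then `M` is covered by `2 ^ d` translates of its interior,
and by `2 ^ d - 1` translates if it is not a parallelotope. For `d = 3`: all bodies close to a
cylinder over any planar convex body.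

More generally, if every convex body `Q` of dimension `k ≤ m` which is not a parallelotope is covered
by `2 ^ k - 1` translates of its interior (this is known for `m = 2`), then there is `δ = δ(m) > 0`
such that the assertion is true in a neighbourhood of this size of all joins of sets of dimensions at
most `m`, in all dimensions `d` and for any number of pieces.

The proof.

1. Stability in the fixed dimension `k`. Suppose that all bodies of dimension `k` which are not
   parallelotopes have a covering by `2 ^ k - 1` translates of the interior. Then for `η > 0` there is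
   `δ > 0` such that for every body `Q` of dimension `k` the dilate `(1 + δ) Q` is covered by
   `2 ^ k - 1` translates of `int Q` or `Q` lies between a parallelotope `B` and `(1 + η) B`.
   Otherwise take counterexamples `Q n` for `δ = 1 / n`, normalise them by the choice of an inscribed
   simplex (a vertex fixed, maximal volume), and pass to the limit along an ultrafilter.
2. If for one factor of `P` the first case holds, then `M` is covered by at most
   `(2 ^ k - 1) 2 ^ (d - k)` translates, `k` the dimension of the factor.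
3. Otherwise `P` is close to a parallelotope, and so is `M`, at a distance which does not depend on
   the number of the factors. Then the theorem of the file `NearCrossBodiesH11` applies, in which the
   size of the neighbourhood does not depend on the dimension either.
4. In dimension two the hypothesis is Levi's theorem (starting file, project TH438).
-/

open scoped InnerProductSpace

namespace Pool.Agent.Results.MP_5e7226_co.NearPlanarJoinsH11

/-- the Euclidean space `E^d` -/
abbrev Eu (d : ℕ) : Type := EuclideanSpace ℝ (Fin d)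

/-- `N` hyperplanes `{x | ⟪w i, x⟫ = b i}` are enough to separate every face of `K` (the set of the
maximum points of a linear functional `⟪u, ·⟫`, `u ≠ 0`, on `K`) strictly from `o`. -/
def Separated {d : ℕ} (N : ℕ) (K : Set (Eu d)) (o : Eu d) : Prop :=
  ∃ w : Fin N → Eu d, ∃ b : Fin N → ℝ,
    ∀ u x₀ : Eu d, u ≠ 0 → x₀ ∈ K → (∀ y ∈ K, ⟪u, y⟫_ℝ ≤ ⟪u, x₀⟫_ℝ) →
      ∃ i, ⟪w i, o⟫_ℝ < b i ∧ ∀ x ∈ K, ⟪u, x⟫_ℝ = ⟪u, x₀⟫_ℝ → b i < ⟪w i, x⟫_ℝ

/-- `K` is a cross-body centred at `o`. -/
def IsCrossBody {d : ℕ} (K : Set (Eu d)) (o : Eu d) : Prop :=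
  ∃ (v : Fin d → Eu d) (t : Fin d → ℝ), LinearIndependent ℝ v ∧ (∀ i, 0 < t i) ∧
    K = convexHull ℝ (⋃ i, ({o + v i, o - t i • v i} : Set (Eu d)))

/-- `M` is covered by at most `N` translates of its interior. -/
def Covered {d : ℕ} (N : ℕ) (M : Set (Eu d)) : Prop :=
  ∃ T : Finset (Eu d), T.card ≤ N ∧ M ⊆ ⋃ t ∈ T, (fun x => t + x) '' interior M

/-- `M` is a parallelotope. -/
def IsParallelotope {d : ℕ} (M : Set (Eu d)) : Prop :=
  ∃ (p : Eu d) (w : Fin d → Eu d), LinearIndependent ℝ w ∧
    M = {x | ∃ a : Fin d → ℝ, (∀ i, 0 ≤ a i ∧ a i ≤ 1) ∧ x = p + ∑ i, a i • w i}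

/-- Every convex body of dimension `k` which is not a parallelotope is covered by `2 ^ k - 1`
translates of its interior. -/
def HadwigerIn (k : ℕ) : Prop :=
  ∀ Q : Set (Eu k), Convex ℝ Q → IsCompact Q → (interior Q).Nonempty →
    Covered (2 ^ k - 1) Q ∨ IsParallelotope Q

/-- The assertion of the problem for all `(K, o)` such that `K` lies between `o + (1 + δ)⁻¹ C` and
`o + C` for a join `C` of compact sets of dimension at most `m` in independent subspaces. -/
def NearJoins (m : ℕ) (δ : ℝ) : Prop :=
  ∀ (d : ℕ), 1 ≤ d → ∀ (r : ℕ) (V : Fin r → Submodule ℝ (Eu d)), iSupIndep V → ⨆ i, V i = ⊤ →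
    (∀ i, Module.finrank ℝ (V i) ≤ m) →
    ∀ C : Fin r → Set (Eu d), (∀ i, C i ⊆ V i ∧ IsCompact (C i)) →
    0 ∈ interior (convexHull ℝ (⋃ i, C i)) →
    ∀ (K : Set (Eu d)) (o : Eu d), Convex ℝ K → IsCompact K → o ∈ interior K →
    (∀ x ∈ K, x - o ∈ convexHull ℝ (⋃ i, C i)) → (∀ i, ∀ y ∈ C i, o + (1 + δ)⁻¹ • y ∈ K) →
    Separated (2 ^ d) K o ∧ (¬ Separated (2 ^ d - 1) K o → IsCrossBody K o)

/-- The covering form: `M` lies between the sum `P` of convex bodies in independent subspaces of
dimension at most `m` and a translate of `(1 + δ) P`. -/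
def NearSums (m : ℕ) (δ : ℝ) : Prop :=
  ∀ (d r : ℕ) (V : Fin r → Submodule ℝ (Eu d)), iSupIndep V → ⨆ i, V i = ⊤ →
    (∀ i, Module.finrank ℝ (V i) ≤ m) →
    ∀ Q : Fin r → Set (Eu d), (∀ i, Q i ⊆ V i ∧ Convex ℝ (Q i) ∧ IsCompact (Q i)) →
    ∀ P : Set (Eu d), P = {x | ∃ q : Fin r → Eu d, (∀ i, q i ∈ Q i) ∧ x = ∑ i, q i} →
    (interior P).Nonempty → ∀ M : Set (Eu d), Convex ℝ M → IsCompact M → P ⊆ M →
    ∀ c : Eu d, (∀ x ∈ M, ∃ y ∈ P, x = c + (1 + δ) • y) →
    Covered (2 ^ d) M ∧ (¬ Covered (2 ^ d - 1) M → IsParallelotope M)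

/-- **Theorem.** (1) There is an absolute constant `δ > 0` such that the assertion of the problem is
true for all `(K, o)` with `o + (1 + δ)⁻¹ C ⊆ K ⊆ o + C`, `C` any join of planar sets and segments in
independent subspaces (in any dimension), and the covering form is true for all `M` with
`P ⊆ M ⊆ c + (1 + δ) P`, `P` any sum of planar bodies and segments. (2) The same is true for joins and
sums of bodies of dimension at most `m`, with a constant `δ(m)`, if Hadwiger's conjecture is true in
the dimensions `3, ..., m`. -/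
theorem result :
    (∃ δ : ℝ, 0 < δ ∧ NearJoins 2 δ ∧ NearSums 2 δ) ∧
    (∀ m : ℕ, (∀ k : ℕ, 3 ≤ k → k ≤ m → HadwigerIn k) →
      ∃ δ : ℝ, 0 < δ ∧ NearJoins m δ ∧ NearSums m δ) := by
  have main : ∀ m : ℕ, (∀ k : ℕ, 3 ≤ k → k ≤ m → HadwigerIn k) →
      ∃ δ : ℝ, 0 < δ ∧ NearJoins m δ ∧ NearSums m δ := by
    intro m H
    have hin : ∀ k ≤ m, Pool.Agent.V7H11.NP.InC k := by
      intro k hk
      rcases Nat.lt_or_ge k 3 with h | h
      · interval_cases k
        · exact Pool.Agent.V7H11.NP.inC_zero
        · exact Pool.Agent.V7H11.NP.inC_one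
        · exact Pool.Agent.V7H11.NP.inC_two
      · exact Pool.Agent.V7H11.NP.inC_of_euclid (H k h hk)
    obtain ⟨δ, hδ⟩ := Pool.Agent.V7H11.NP.uniform m hin
    refine ⟨δ, hδ.1, ?_, ?_⟩
    · intro d hd r V h1 h2 h3 C h4 h5 K o h6 h7 h8 h9 h10
      obtain ⟨h11, h12⟩ := Pool.Agent.V7H11.NP.separation hd hδ h1 h2 h3 (fun i => (h4 i).1)
        (fun i => (h4 i).2) h5 h6 h7 h8 h9 h10
      refine ⟨h11, fun hno => ?_⟩
      rcases h12 with h13 | ⟨v, t, hv, ht, hK⟩
      · exact absurd h13 hno
      · refine ⟨v, t, hv, ht, hK.trans (congrArg _ ?_)⟩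
        ext x
        simp only [Set.mem_union, Set.mem_range, Set.mem_iUnion, Set.mem_insert_iff,
          Set.mem_singleton_iff]
        constructor
        · rintro (⟨i, rfl⟩ | ⟨i, rfl⟩)
          · exact ⟨i, Or.inl rfl⟩
          · exact ⟨i, Or.inr rfl⟩
        · rintro ⟨i, rfl | rfl⟩
          · exact Or.inl ⟨i, rfl⟩
          · exact Or.inr ⟨i, rfl⟩
    · intro d r V h1 h2 h3 Q h4 P h5 h6 M h7 h8 h9 c h10
      obtain ⟨h11, h12⟩ := Pool.Agent.V7H11.NP.covering hδ h1 h2 h3 (fun i => (h4 i).1)
        (fun i => (h4 i).2.1) (fun i => (h4 i).2.2) h5 h6 h7 h8 h9 c h10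
      refine ⟨h11, fun hno => ?_⟩
      exact Pool.Agent.V7H11.NP.par_of_box (h12.resolve_left hno)
  exact ⟨main 2 fun k h1 h2 => absurd (h1.trans h2) (by norm_num), main⟩

end Pool.Agent.Results.MP_5e7226_co.NearPlanarJoinsH11
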