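import Mathlib
import Pool.Agent.V7H52.HX.Main
import Pool.Agent.V7H52.HX.Net2
import Pool.Agent.V7H52.HX.CrossNet
import Pool.Agent.H765R3.Had.Grp

set_option autoImplicit false

/-!
# MP_5e7226_co: bodies with nearly round sections

Let `K` be a convex body in `ℝ^(m 1) ⊕ ... ⊕ ℝ^(m r) ⊕ ℝ^e`, `r ≥ 1`, `e ≥ 1`, of dimension
`d = ∑ m i + e`, and `o` an interior point. Suppose that the sections of `K` parallel to the blocks are
nearly round about `o`: each nonempty section by a translate of the block `i` lies between the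
balls of radii `t` and `ρ i t`, for some `t ≥ 0` that may depend on the section, whose centre has the
block component of `o`. Nothing else is assumed; no symmetry, and nothing about the last part
`ℝ^e`. Let `K₀` be the section of `K` by the flat through `o` parallel to `ℝ^e`.

1. Let `D i` be a finite set of unit vectors in `ℝ^(m i)` that covers the sphere with cosine at
   least `c i`, where `0 < c i ≤ 1` and `ρ i ^ 2 (1 - c i ^ 2) < 1`, and let `P = ∏ (|D i| + 1)`. Then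
   `s(K, o) ≤ P s(K₀, o)`; `s(K, o) ≤ (P - 1) 2 ^ e` if `K₀` is a cross-body centred at `o`;
   `s(K, o) ≤ 2 (P - 1)` if `e = 1`; `s(K, o) ≤ 13 P` if `e = 3`; `s(K, o) < 2 ^ d`, so that both
   parts of the conjecture are true for `(K, o)`, if `P ≤ 2 ^ (∑ m i)` and `e ≤ 2` or the conjecture is
   true for `(K₀, o)`, and also, with no assumption on `K₀`, if
   `3 e log (2 e² + 2 e + 1) P < 2 ^ (∑ m i)`.
2. This is so with `P = ∏ (m i + 2)` if `ρ i ^ 2 (1 - 1 / m i ^ 2) < 1`, and with `P = ∏ (2 m i + 1)` if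
   `ρ i ^ 2 (1 - 1 / m i) < 1`. So in these two cases (with all `m i ≥ 2`, or all `m i ≥ 3`) both parts
   of the conjecture are true for `(K, o)` if `e ≤ 2` or if they are true for `(K₀, o)`.
3. For `1 ≤ ρ < σ` there is `m₀` such that (1) is true with `P = ⌊σ ^ (∑ m i)⌋` if all `ρ i ≤ ρ` and all
   `m i ≥ m₀`.
4. For `1 ≤ ρ < 2` there are `κ > 0` and `m₀` such that `s(K, o) < 2 ^ d`, with no assumption on `K₀`, if
   all `ρ i ≤ ρ`, all `m i ≥ m₀` and `e ≤ exp (κ ∑ m i)`. So the conjecture is true, with strict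
   inequality, for the bodies in `ℝ^d` whose sections parallel to one subspace of dimension
   `≥ C log d` are nearly round about `o` with the ratio `ρ`, where `C` depends only on `ρ < 2`.
5. If `K` is invariant about `o` under a set `Γ` of isometries of the block `i` such that for all
   unit vectors `u`, `v` some `g ∈ Γ` has `⟪u, g v⟫ ≥ 1 / ρ`, then the sections of `K` parallel to this
   block are nearly round with the ratio `ρ`. For instance `ρ = 1` for `SO(m i)`. So (1)-(4) are true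
   for bodies with symmetries that fix a subspace.

For `u`, and `x` in the face of `K` with the normal `u`, `o = 0`, the nearly round section through `x`
gives `‖u i‖ ‖x i‖ ≤ ρ i ⟪u i, x i⟫`. For `u ≠ 0` take `w` with the components `w i ∈ D i`, next to the
direction of `u i`, if `u i ≠ 0`, and `w i = 0` if `u i = 0`, and the last component `δ w₀` with a
vector `w₀` that separates the face of `K₀` with the normal `u₀`. If `x` is in the face of `K` with
the normal `u` then all `⟪w i, x i⟫ ≥ 0`, and if all are `0` then `x i = 0` whenever `u i ≠ 0`, so that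
`x₀` lies in the face of `K₀` and `⟪w₀, x₀⟫ > 0`. That one small `δ` is enough for all `u` follows
from a limit argument, in which one uses that the above relations between the blocks of `u` and of
`x` are closed and positively homogeneous. The sets `D i` in (3) are small nets on the sphere in high
dimensions; their existence is proved by the greedy algorithm.
-/

namespace Pool.Agent.Results.MP_5e7226_co.NearlyRoundH52

open scoped InnerProductSpace
open Pool.Agent.Results.MP_5e7226_co.ExtremePointsInFlats (BothParts)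
open Pool.Agent.V7H52.GX (Space SeparatedBy section₀ Bounds dec)
open Pool.Agent.V7H52.HX (cross_net)

/-- Each section of `K` parallel to the block `i` lies between two balls about `o` whose radii have
the ratio `ρ`: with `x` it contains the ball of radius `‖x i - o i‖ / ρ`. -/
def NearlyRound {r : ℕ} {m : Fin r → ℕ} {e : ℕ} (K : Set (Space m e)) (o : Space m e) (i : Fin r)
    (ρ : ℝ) : Prop :=
  ∀ x ∈ K, ∀ y : Space m e, (∀ j, j ≠ i → y.fst j = x.fst j) → y.snd = x.snd →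
    ρ * ‖y.fst i - o.fst i‖ ≤ ‖x.fst i - o.fst i‖ → y ∈ K

/-- `D` is a finite set of unit vectors that contains for each unit vector `u` some `t` with
`⟪u, t⟫ ≥ c`. -/
def Net {E : Type*} [NormedAddCommGroup E] [InnerProductSpace ℝ E] (c : ℝ) (D : Finset E) : Prop :=
  (∀ t ∈ D, ‖t‖ = 1) ∧ ∀ u : E, ‖u‖ = 1 → ∃ t ∈ D, c ≤ ⟪u, t⟫_ℝ

/-- the relation between the blocks of a normal and of a point of its face -/
def Rel {E : Type*} [NormedAddCommGroup E] [InnerProductSpace ℝ E] (ρ : ℝ) (u z : E) : Prop :=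
  ‖u‖ * ‖z‖ ≤ ρ * ⟪u, z⟫_ℝ

theorem rel_tests {m : ℕ} {D : Finset (EuclideanSpace ℝ (Fin m))} {c ρ : ℝ} (hρ : 1 ≤ ρ)
    (hc : 0 < c) (hc1 : c ≤ 1) (hD : Net c D) (hcρ : ρ ^ 2 * (1 - c ^ 2) < 1) :
    Pool.Agent.V7H52.HX.HasTests (Rel ρ) D := by
  have hunit : ∀ u : EuclideanSpace ℝ (Fin m), u ≠ 0 → ‖‖u‖⁻¹ • u‖ = 1 := fun u hu => by
    rw [norm_smul, norm_inv, norm_norm, inv_mul_cancel₀ (norm_ne_zero_iff.2 hu)]
  have hc2 : 0 ≤ 1 - c ^ 2 := by nlinarith
  refine ⟨fun h0 => ?_, fun u hu => ?_⟩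
  · have := hD.1 0 h0
    rw [norm_zero] at this
    exact zero_ne_one this
  · obtain ⟨t, ht, h3⟩ := hD.2 _ (hunit u hu)
    refine ⟨t, ht, fun z hz hr => ?_⟩
    have hnu : 0 < ‖u‖ := norm_pos_iff.2 hu
    have hnz : 0 < ‖z‖ := norm_pos_iff.2 hz
    have hgt : √(1 - c ^ 2) < ⟪‖u‖⁻¹ • u, ‖z‖⁻¹ • z⟫_ℝ := by
      have h4 : √(1 - c ^ 2) < 1 / ρ := by
        rw [Real.sqrt_lt' (by positivity), div_pow, one_pow, lt_div_iff₀ (by positivity)]
        linarith
      refine h4.trans_le ?_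
      rw [inner_smul_left, inner_smul_right]
      simp only [conj_trivial]
      have h5 : ‖u‖ * ‖z‖ ≤ ρ * ⟪u, z⟫_ℝ := hr
      rw [div_le_iff₀ (by linarith), show ‖u‖⁻¹ * (‖z‖⁻¹ * ⟪u, z⟫_ℝ) * ρ =
        (ρ * ⟪u, z⟫_ℝ) / (‖u‖ * ‖z‖) by field_simp, one_le_div (by positivity)]
      exact h5
    have hpos := Pool.Agent.H765R3.Had.Grp.angle (hD.1 t ht) (hunit u hu) (hunit z hz) hc
      (Real.sqrt_nonneg _) (by rw [Real.sq_sqrt hc2]; ring) h3 hgt
    rw [inner_smul_right] at hpos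
    exact (mul_pos_iff_of_pos_left (inv_pos.2 hnz)).1 hpos

theorem good {r : ℕ} {m : Fin r → ℕ} {e : ℕ} {K : Set (Space m e)} {o : Space m e}
    {ρ : Fin r → ℝ} (hρ : ∀ i, 1 ≤ ρ i) (h : ∀ i, NearlyRound K o i (ρ i)) :
    Pool.Agent.V7H52.HX.Good (dec m e) ((fun x => x + o) ⁻¹' K) fun i => Rel (ρ i) := by
  classical
  have hfst : ∀ (a b : Space m e) (j : Fin r), (a + b).fst j = a.fst j + b.fst j := fun _ _ _ => rfl
  have hsnd : ∀ (a b : Space m e), (a + b).snd = a.snd + b.snd := fun _ _ => rfl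
  -- the points of the section
  have key : ∀ (i : Fin r) (x : Space m e), x + o ∈ K → ∀ v : EuclideanSpace ℝ (Fin (m i)),
      ρ i * ‖v‖ ≤ ‖x.fst i‖ →
      (dec m e).glue (Function.update x.fst i v) x.snd + o ∈ K := by
    intro i x hx v hv
    refine h i (x + o) hx _ (fun j hj => ?_) ?_ ?_
    · rw [hfst, hfst]
      congr 1
      show Function.update x.fst i v j = _
      rw [Function.update_of_ne hj]
    · rw [hsnd, hsnd]
      rfl
    · rw [hfst, hfst, add_sub_cancel_right, add_sub_cancel_right]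
      have : ((dec m e).glue (Function.update x.fst i v) x.snd).fst i = v := by
        show Function.update x.fst i v i = v
        rw [Function.update_self]
      rw [this]
      exact hv
  refine ⟨fun i => ?_, fun i c c' u z hc hc' hr => ?_, fun u x hx i => ?_, fun i x hx hx0 a ha => ?_⟩
  · exact isClosed_le (by fun_prop) (by fun_prop)
  · show ‖c • u‖ * ‖c' • z‖ ≤ ρ i * ⟪c • u, c' • z⟫_ℝ
    have h1 : ‖u‖ * ‖z‖ ≤ ρ i * ⟪u, z⟫_ℝ := hr
    rw [norm_smul, norm_smul, Real.norm_eq_abs, Real.norm_eq_abs, abs_of_pos hc, abs_of_pos hc',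
      inner_smul_left, inner_smul_right]
    simp only [conj_trivial]
    calc c * ‖u‖ * (c' * ‖z‖) = c * c' * (‖u‖ * ‖z‖) := by ring
      _ ≤ c * c' * (ρ i * ⟪u, z⟫_ℝ) := mul_le_mul_of_nonneg_left h1 (by positivity)
      _ = _ := by ring
  · show ‖u.fst i‖ * ‖x.fst i‖ ≤ ρ i * ⟪u.fst i, x.fst i⟫_ℝ
    have hρi : 0 < ρ i := one_pos.trans_le (hρ i)
    rcases eq_or_ne (u.fst i) 0 with hu0 | hu0
    · rw [hu0, inner_zero_left, norm_zero]
      simp
    have hun : 0 < ‖u.fst i‖ := norm_pos_iff.2 hu0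
    set v : EuclideanSpace ℝ (Fin (m i)) := (‖x.fst i‖ / (ρ i * ‖u.fst i‖)) • u.fst i with hv
    have hvn : ρ i * ‖v‖ = ‖x.fst i‖ := by
      rw [hv, norm_smul, Real.norm_eq_abs, abs_of_nonneg (by positivity)]
      field_simp
    have h1 := hx.2 _ (key i x hx.1 v hvn.le)
    rw [(dec m e).inner_eq, (dec m e).inner_eq, (dec m e).q_glue] at h1
    have h2 : ∑ j, ⟪(dec m e).p j u, (dec m e).p j ((dec m e).glue (Function.update x.fst i v)
        x.snd)⟫_ℝ = ∑ j, ⟪(dec m e).p j u, (dec m e).p j x⟫_ℝ + (⟪u.fst i, v⟫_ℝ -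
          ⟪u.fst i, x.fst i⟫_ℝ) := by
      rw [← Finset.add_sum_erase _ _ (Finset.mem_univ i),
        ← Finset.add_sum_erase _ (fun j => ⟪(dec m e).p j u, (dec m e).p j x⟫_ℝ)
          (Finset.mem_univ i)]
      have h3 : ∑ j ∈ Finset.univ.erase i, ⟪(dec m e).p j u, (dec m e).p j ((dec m e).glue
          (Function.update x.fst i v) x.snd)⟫_ℝ =
          ∑ j ∈ Finset.univ.erase i, ⟪(dec m e).p j u, (dec m e).p j x⟫_ℝ := by
        refine Finset.sum_congr rfl fun j hj => ?_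
        rw [(dec m e).p_glue, Function.update_of_ne (Finset.ne_of_mem_erase hj)]
        rfl
      rw [h3, (dec m e).p_glue, Function.update_self]
      have h4 : (dec m e).p i u = u.fst i := rfl
      have h5 : (dec m e).p i x = x.fst i := rfl
      rw [h4, h5]
      ring
    have h3 : (dec m e).q x = x.snd := rfl
    rw [h2, h3] at h1
    have h4 : ⟪u.fst i, v⟫_ℝ ≤ ⟪u.fst i, x.fst i⟫_ℝ := by linarith
    rw [hv, inner_smul_right, real_inner_self_eq_norm_sq] at h4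
    have h5 : ‖x.fst i‖ / (ρ i * ‖u.fst i‖) * ‖u.fst i‖ ^ 2 = ‖u.fst i‖ * ‖x.fst i‖ / ρ i := by
      field_simp
    rw [h5, div_le_iff₀ hρi] at h4
    linarith
  · have hρi : 0 < ρ i := one_pos.trans_le (hρ i)
    have hxn : 0 < ‖x.fst i‖ := norm_pos_iff.2 hx0
    have han : 0 < ‖a‖ := norm_pos_iff.2 ha
    refine ⟨_, key i x hx ((‖x.fst i‖ / (ρ i * ‖a‖)) • a) ?_, fun j hj => ?_, rfl, ?_⟩
    · rw [norm_smul, Real.norm_eq_abs, abs_of_nonneg (by positivity)]
      refine le_of_eq ?_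
      field_simp
    · rw [(dec m e).p_glue, Function.update_of_ne hj]
      rfl
    · rw [(dec m e).p_glue, Function.update_self, inner_smul_right, real_inner_self_eq_norm_sq]
      positivity

/-- `K` is invariant about `o` under the maps `g` in `Γ` applied to the block `i`. -/
def InvariantAt {r : ℕ} {m : Fin r → ℕ} {e : ℕ} (i : Fin r)
    (Γ : Set (EuclideanSpace ℝ (Fin (m i)) ≃ₗᵢ[ℝ] EuclideanSpace ℝ (Fin (m i))))
    (K : Set (Space m e)) (o : Space m e) : Prop :=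
  ∀ g ∈ Γ, ∀ x ∈ K, ∀ y : Space m e, y.fst i - o.fst i = g (x.fst i - o.fst i) →
    (∀ j, j ≠ i → y.fst j = x.fst j) → y.snd = x.snd → y ∈ K

/-- For all unit vectors `u`, `v` some `g` in `Γ` has `⟪u, g v⟫ ≥ 1 / ρ`. -/
def Turning {E : Type*} [NormedAddCommGroup E] [InnerProductSpace ℝ E] (ρ : ℝ)
    (Γ : Set (E ≃ₗᵢ[ℝ] E)) : Prop :=
  ∀ u v : E, ‖u‖ = 1 → ‖v‖ = 1 → ∃ g ∈ Γ, 1 ≤ ρ * ⟪u, g v⟫_ℝ

/-- symmetric bodies are nearly round -/
theorem round_of_invariant {r : ℕ} {m : Fin r → ℕ} {e : ℕ} {K : Set (Space m e)} {o : Space m e}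
    (hK : Convex ℝ K) (hKc : IsCompact K) {i : Fin r}
    {Γ : Set (EuclideanSpace ℝ (Fin (m i)) ≃ₗᵢ[ℝ] EuclideanSpace ℝ (Fin (m i)))} {ρ : ℝ}
    (hρ : 0 < ρ)
    (hΓ : Turning ρ Γ)
    (h : InvariantAt i Γ K o) : NearlyRound K o i ρ := by
  classical
  intro x hx y hy1 hy2 hy3
  -- the points over the block
  let G : EuclideanSpace ℝ (Fin (m i)) → Space m e := fun z =>
    WithLp.toLp 2 (WithLp.toLp 2 (Function.update x.fst i z), x.snd)
  have hG1 : ∀ z, (G z).fst i = z := fun z => by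
    show Function.update x.fst i z i = z
    rw [Function.update_self]
  have hG2 : ∀ z j, j ≠ i → (G z).fst j = x.fst j := fun z j hj => by
    show Function.update x.fst i z j = x.fst j
    rw [Function.update_of_ne hj]
  have hG3 : ∀ z, (G z).snd = x.snd := fun z => rfl
  have hext : ∀ a b : Space m e, (∀ j, a.fst j = b.fst j) → a.snd = b.snd → a = b := fun a b h1 h2 =>
    (dec m e).ext h1 h2
  by_contra hcon
  have hyG : y = G (y.fst i) := by
    refine hext _ _ (fun j => ?_) (by rw [hG3, hy2])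
    by_cases hj : j = i
    · subst hj; rw [hG1]
    · rw [hG2 _ j hj, hy1 j hj]
  -- the functional
  obtain ⟨f, s, hf1, hf2⟩ := geometric_hahn_banach_closed_point hK hKc.isClosed hcon
  set w : Space m e := (InnerProductSpace.toDual ℝ (Space m e)).symm f with hw
  have hfw : ∀ z, f z = ⟪w, z⟫_ℝ := fun z => by
    rw [hw, InnerProductSpace.toDual_symm_apply]
  have hdiff : ∀ z, ⟪w, G z⟫_ℝ - ⟪w, y⟫_ℝ = ⟪w.fst i, z⟫_ℝ - ⟪w.fst i, y.fst i⟫_ℝ := by
    intro z
    rw [(dec m e).inner_eq, (dec m e).inner_eq, ← Finset.add_sum_erase _ _ (Finset.mem_univ i),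
      ← Finset.add_sum_erase _ (fun j => ⟪(dec m e).p j w, (dec m e).p j y⟫_ℝ)
        (Finset.mem_univ i)]
    have h3 : ∑ j ∈ Finset.univ.erase i, ⟪(dec m e).p j w, (dec m e).p j (G z)⟫_ℝ =
        ∑ j ∈ Finset.univ.erase i, ⟪(dec m e).p j w, (dec m e).p j y⟫_ℝ := by
      refine Finset.sum_congr rfl fun j hj => ?_
      have h4 : (dec m e).p j (G z) = (dec m e).p j y :=
        (hG2 z j (Finset.ne_of_mem_erase hj)).trans (hy1 j (Finset.ne_of_mem_erase hj)).symm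
      rw [h4]
    have h4 : (dec m e).q (G z) = (dec m e).q y := (hG3 z).trans hy2.symm
    have h5 : (dec m e).p i (G z) = z := hG1 z
    have h6 : (dec m e).p i w = w.fst i := rfl
    have h7 : (dec m e).p i y = y.fst i := rfl
    rw [h3, h4, h5, h6, h7]
    ring
  set v := x.fst i - o.fst i with hv
  set v' := y.fst i - o.fst i with hv'
  -- a point of `K` that is as far as `y`
  obtain ⟨z, hzK, hz⟩ : ∃ z, G (z + o.fst i) ∈ K ∧ ⟪w.fst i, v'⟫_ℝ ≤ ⟪w.fst i, z⟫_ℝ := by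
    rcases eq_or_ne v 0 with hv0 | hv0
    · refine ⟨0, ?_, ?_⟩
      · have : G (0 + o.fst i) = x := by
          refine hext _ _ (fun j => ?_) (hG3 _)
          by_cases hj : j = i
          · subst hj
            rw [hG1, zero_add]
            exact (sub_eq_zero.1 hv0).symm
          · exact hG2 _ j hj
        rw [this]; exact hx
      · rw [hv0, norm_zero] at hy3
        have h1 : ‖v'‖ = 0 := by
          have := norm_nonneg v'
          nlinarith
        rw [norm_eq_zero.1 h1]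
    · have hvn : 0 < ‖v‖ := norm_pos_iff.2 hv0
      have hunit : ∀ a : EuclideanSpace ℝ (Fin (m i)), a ≠ 0 → ‖‖a‖⁻¹ • a‖ = 1 := fun a ha => by
        rw [norm_smul, norm_inv, norm_norm, inv_mul_cancel₀ (norm_ne_zero_iff.2 ha)]
      -- the isometry
      obtain ⟨g, hg, h1⟩ : ∃ g ∈ Γ, ‖w.fst i‖ * ‖v‖ ≤ ρ * ⟪w.fst i, g v⟫_ℝ := by
        by_cases hw0 : w.fst i = 0
        · obtain ⟨g, hg, -⟩ := hΓ _ _ (hunit v hv0) (hunit v hv0)
          exact ⟨g, hg, by rw [hw0, inner_zero_left, norm_zero]; simp⟩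
        · obtain ⟨g, hg, h1⟩ := hΓ _ _ (hunit _ hw0) (hunit v hv0)
          refine ⟨g, hg, ?_⟩
          have hwn : 0 < ‖w.fst i‖ := norm_pos_iff.2 hw0
          rw [map_smul, inner_smul_left, inner_smul_right] at h1
          simp only [conj_trivial] at h1
          rw [show ρ * (‖w.fst i‖⁻¹ * (‖v‖⁻¹ * ⟪w.fst i, g v⟫_ℝ)) =
            (ρ * ⟪w.fst i, g v⟫_ℝ) / (‖w.fst i‖ * ‖v‖) by field_simp,
            one_le_div (by positivity)] at h1
          exact h1
      refine ⟨g v, h g hg x hx _ ?_ (hG2 _) (hG3 _), ?_⟩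
      · rw [hG1, add_sub_cancel_right]
      · have h2 := real_inner_le_norm (w.fst i) v'
        have h3 : ρ * ⟪w.fst i, v'⟫_ℝ ≤ ρ * ⟪w.fst i, g v⟫_ℝ := by
          calc ρ * ⟪w.fst i, v'⟫_ℝ ≤ ρ * (‖w.fst i‖ * ‖v'‖) := mul_le_mul_of_nonneg_left h2 hρ.le
            _ = ‖w.fst i‖ * (ρ * ‖v'‖) := by ring
            _ ≤ ‖w.fst i‖ * ‖v‖ := mul_le_mul_of_nonneg_left hy3 (norm_nonneg _)
            _ ≤ _ := h1
        exact le_of_mul_le_mul_left h3 hρ
  have h1 := hf1 _ hzK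
  rw [hfw] at h1 hf2
  have h2 := hdiff (z + o.fst i)
  rw [inner_add_right] at h2
  have h3 : ⟪w.fst i, v'⟫_ℝ = ⟪w.fst i, y.fst i⟫_ℝ - ⟪w.fst i, o.fst i⟫_ℝ := by
    rw [hv', inner_sub_right]
  linarith

/-- The bounds in the cases of small ratios. -/
def SmallRatios {r : ℕ} {m : Fin r → ℕ} {e : ℕ} (K : Set (Space m e)) (o : Space m e)
    (ρ : Fin r → ℝ) : Prop :=
  ((∀ i, ρ i ^ 2 * (1 - (1 / (m i : ℝ)) ^ 2) < 1) → Bounds K o (∏ i, (m i + 2)) ∧
    ((∀ i, 2 ≤ m i) → (e ≤ 2 ∨ BothParts (section₀ K o) o.snd) →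
      SeparatedBy K o (2 ^ (∑ i, m i + e) - 1))) ∧
  ((∀ i, ρ i ^ 2 * (1 - (1 / √(m i : ℝ)) ^ 2) < 1) → Bounds K o (∏ i, (2 * m i + 1)) ∧
    ((∀ i, 3 ≤ m i) → (e ≤ 2 ∨ BothParts (section₀ K o) o.snd) →
      SeparatedBy K o (2 ^ (∑ i, m i + e) - 1)))

/-- `K` is a convex body with the interior point `o`, nearly round with the ratios `ρ i`. -/
def RoundBody {r : ℕ} {m : Fin r → ℕ} {e : ℕ} (K : Set (Space m e)) (o : Space m e)
    (ρ : Fin r → ℝ) : Prop :=
  Convex ℝ K ∧ IsCompact K ∧ o ∈ interior K ∧ ∀ i, NearlyRound K o i (ρ i)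

theorem main {r : ℕ} (hr : 1 ≤ r) {m : Fin r → ℕ} (hm : ∀ i, 1 ≤ m i) {e : ℕ} (he : 1 ≤ e)
    {K : Set (Space m e)} {o : Space m e} {ρ : Fin r → ℝ} (hρ : ∀ i, 1 ≤ ρ i)
    (h : RoundBody K o ρ) (D : ∀ i, Finset (EuclideanSpace ℝ (Fin (m i)))) (c : Fin r → ℝ)
    (hc : ∀ i, 0 < c i ∧ c i ≤ 1 ∧ Net (c i) (D i) ∧ ρ i ^ 2 * (1 - c i ^ 2) < 1) {P : ℕ}
    (hP : ∏ i, ((D i).card + 1) ≤ P) : Bounds K o P :=
  Pool.Agent.V7H52.HX.bounds hr hm he (R := fun i => Rel (ρ i)) (D := D)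
    (fun i => rel_tests (hρ i) (hc i).1 (hc i).2.1 (hc i).2.2.1 (hc i).2.2.2)
    h.1 h.2.1 h.2.2.1 (good hρ h.2.2.2) hP

theorem small {r : ℕ} (hr : 1 ≤ r) {m : Fin r → ℕ} (hm : ∀ i, 1 ≤ m i) {e : ℕ} (he : 1 ≤ e)
    {K : Set (Space m e)} {o : Space m e} {ρ : Fin r → ℝ} (hρ : ∀ i, 1 ≤ ρ i)
    (h : RoundBody K o ρ) : SmallRatios K o ρ := by
  have hmi : ∀ i, (1 : ℝ) ≤ m i := fun i => by exact_mod_cast hm i
  have hmi0 : ∀ i, (0 : ℝ) < m i := fun i => by linarith [hmi i]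
  constructor
  · intro h1
    choose D hDc hD using fun i => Pool.Agent.H765R3.Had.Grp.simplex_dirs (m i) (hm i)
    have hb := main hr hm he hρ h D (fun i => 1 / (m i : ℝ)) (fun i => ⟨by
      have := hmi0 i; positivity, by rw [div_le_one (hmi0 i)]; exact hmi i, hD i, h1 i⟩)
      (P := ∏ i, (m i + 2)) (Finset.prod_le_prod' fun i _ => by have := hDc i; omega)
    refine ⟨hb, fun hm2 hor => hb.2.2.2.1 ?_ hor⟩
    rw [← Finset.prod_pow_eq_pow_sum]
    refine Finset.prod_le_prod' fun i _ => ?_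
    have : ∀ n : ℕ, 2 ≤ n → n + 2 ≤ 2 ^ n := by
      intro n hn
      induction n, hn using Nat.le_induction with
      | base => norm_num
      | succ n hn ih => rw [pow_succ]; omega
    exact this (m i) (hm2 i)
  · intro h1
    choose D hDc hD using fun i => cross_net (m i) (hm i)
    have hs : ∀ i, 1 ≤ √(m i : ℝ) := fun i => Real.one_le_sqrt.2 (hmi i)
    have hb := main hr hm he hρ h D (fun i => 1 / √(m i : ℝ)) (fun i => ⟨by
      have := hs i; positivity, by rw [div_le_one (by linarith [hs i])]; exact hs i, hD i, h1 i⟩)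
      (P := ∏ i, (2 * m i + 1)) (Finset.prod_le_prod' fun i _ => by have := hDc i; omega)
    refine ⟨hb, fun hm2 hor => hb.2.2.2.1 ?_ hor⟩
    rw [← Finset.prod_pow_eq_pow_sum]
    refine Finset.prod_le_prod' fun i _ => ?_
    have : ∀ n : ℕ, 3 ≤ n → 2 * n + 1 ≤ 2 ^ n := by
      intro n hn
      induction n, hn using Nat.le_induction with
      | base => norm_num
      | succ n hn ih => rw [pow_succ]; omega
    exact this (m i) (hm2 i)

/-- **high dimensions** -/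
theorem high {ρ σ : ℝ} (hρ : 1 ≤ ρ) (hσ : ρ < σ) : ∃ m₀ : ℕ, ∀ (r : ℕ), 1 ≤ r →
    ∀ (m : Fin r → ℕ) (e : ℕ), 1 ≤ e → (∀ i, m₀ ≤ m i) → ∀ (K : Set (Space m e)) (o : Space m e),
      RoundBody K o (fun _ => ρ) → Bounds K o ⌊σ ^ (∑ i, m i)⌋₊ := by
  have hρ0 : 0 < ρ := by linarith
  have hσ0 : 0 < σ := by linarith
  -- the cosine
  have h1 : 1 / σ ^ 2 < 1 / ρ ^ 2 :=
    one_div_lt_one_div_of_lt (by positivity) (pow_lt_pow_left₀ hσ (by linarith) (by norm_num))
  obtain ⟨q, hq1, hq2⟩ := exists_between h1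
  have hq0 : 0 < q := lt_trans (by positivity) hq1
  have hq3 : q < 1 := by
    refine hq2.trans_le ?_
    rw [div_le_one (by positivity)]
    nlinarith
  set c : ℝ := √(1 - q) with hc
  have hc2 : c ^ 2 = 1 - q := Real.sq_sqrt (by linarith)
  have hc0 : 0 < c := Real.sqrt_pos.2 (by linarith)
  have hc1 : c ≤ 1 := by
    have : c ^ 2 ≤ 1 ^ 2 := by rw [hc2]; linarith
    exact le_of_sq_le_sq this (by norm_num)
  obtain ⟨m₀, hm₀⟩ := Pool.Agent.V7H52.HX.net (c := c) (σ := σ) hc0.le hσ0 (by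
    rw [hc2, sub_sub_cancel]
    rw [div_lt_iff₀ (by positivity)] at hq1
    linarith)
  refine ⟨m₀ + 1, fun r hr m e he hm K o h => ?_⟩
  choose D hD1 hD2 hD3 using fun i => hm₀ (m i) (by have := hm i; omega)
  have hnet : ∀ i, Net c (D i) := fun i => ⟨hD1 i, fun u hu => by
    obtain ⟨t, ht, h2⟩ := hD2 i u
    rw [hu, mul_one, real_inner_comm] at h2
    exact ⟨t, ht, h2⟩⟩
  refine main hr (fun i => by have := hm i; omega) he (fun _ => hρ) h D (fun _ => c)
    (fun i => ⟨hc0, hc1, hnet i, ?_⟩) ?_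
  · rw [hc2, sub_sub_cancel]
    rw [lt_div_iff₀ (by positivity)] at hq2
    linarith
  · refine Nat.le_floor ?_
    push_cast
    rw [← Finset.prod_pow_eq_pow_sum]
    exact Finset.prod_le_prod (fun i _ => by positivity) fun i _ => hD3 i

/-- **no assumption on the section** -/
theorem uncond {ρ : ℝ} (hρ : 1 ≤ ρ) (hρ2 : ρ < 2) : ∃ κ > 0, ∃ m₀ : ℕ, ∀ (r : ℕ), 1 ≤ r →
    ∀ (m : Fin r → ℕ) (e : ℕ), 1 ≤ e → (∀ i, m₀ ≤ m i) → ∀ (K : Set (Space m e)) (o : Space m e),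
      RoundBody K o (fun _ => ρ) → (e : ℝ) ≤ Real.exp (κ * (∑ i, m i : ℕ)) →
        SeparatedBy K o (2 ^ (∑ i, m i + e) - 1) := by
  obtain ⟨σ, hσ1, hσ2⟩ := exists_between hρ2
  have hσ0 : 0 < σ := by linarith
  obtain ⟨m₀, hm₀⟩ := high hρ hσ1
  set κ : ℝ := Real.log (2 / σ) / 6 with hκ
  have hκ0 : 0 < κ := by
    rw [hκ]
    have : 0 < Real.log (2 / σ) := Real.log_pos (by rw [lt_div_iff₀ hσ0]; linarith)
    positivity
  -- the base of the exponential
  set q : ℝ := Real.exp (3 * κ) * (σ / 2) with hq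
  have hq0 : 0 < q := by positivity
  have hq1 : q < 1 := by
    have h1 : σ / 2 = Real.exp (-(6 * κ)) := by
      rw [hκ, mul_div_cancel₀ _ (by norm_num : (6 : ℝ) ≠ 0), ← Real.log_inv,
        Real.exp_log (by positivity), inv_div]
    rw [hq, h1, ← Real.exp_add, Real.exp_lt_one_iff]
    linarith
  have hT : Filter.Tendsto (fun n : ℕ => 12 * q ^ n) Filter.atTop (nhds (12 * 0)) :=
    (tendsto_pow_atTop_nhds_zero_of_lt_one hq0.le hq1).const_mul _
  rw [mul_zero] at hT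
  obtain ⟨n₀, hn₀⟩ := Filter.eventually_atTop.1
    (hT.eventually (gt_mem_nhds (show (0 : ℝ) < 1 by norm_num)))
  refine ⟨κ, hκ0, max m₀ n₀, fun r hr m e he hm K o h hee => ?_⟩
  have hb := hm₀ r hr m e he (fun i => (le_max_left _ _).trans (hm i)) K o h
  refine hb.2.2.2.2.2.1 ?_
  set M : ℕ := ∑ i, m i with hM
  have hMn : n₀ ≤ M := by
    refine (le_max_right m₀ n₀).trans ((hm ⟨0, hr⟩).trans ?_)
    exact Finset.single_le_sum (f := m) (fun i _ => Nat.zero_le _) (Finset.mem_univ _)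
  have he1 : (1 : ℝ) ≤ e := by exact_mod_cast he
  have hlog : Real.log (2 * e ^ 2 + 2 * e + 1) ≤ 4 * e ^ 2 := by
    have := Real.log_le_sub_one_of_pos (show (0 : ℝ) < 2 * (e : ℝ) ^ 2 + 2 * e + 1 by positivity)
    nlinarith
  have h12 := hn₀ M hMn
  have hfl : (⌊σ ^ M⌋₊ : ℝ) ≤ σ ^ M := Nat.floor_le (by positivity)
  have h2M : (0 : ℝ) < 2 ^ M := by positivity
  calc 3 * (e * Real.log (2 * (e : ℝ) ^ 2 + 2 * e + 1)) * (⌊σ ^ M⌋₊ : ℝ)
      ≤ 3 * (e * (4 * e ^ 2)) * σ ^ M := by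
        refine mul_le_mul ?_ hfl (by positivity) (by positivity)
        refine mul_le_mul_of_nonneg_left ?_ (by norm_num)
        exact mul_le_mul_of_nonneg_left hlog (by positivity)
    _ = 12 * (e : ℝ) ^ 3 * σ ^ M := by ring
    _ ≤ 12 * Real.exp (κ * M) ^ 3 * σ ^ M := by
        refine mul_le_mul_of_nonneg_right ?_ (by positivity)
        refine mul_le_mul_of_nonneg_left ?_ (by norm_num)
        exact pow_le_pow_left₀ (by positivity) hee 3
    _ = 12 * q ^ M * 2 ^ M := by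
        have h1 : Real.exp (κ * M) ^ 3 = Real.exp (3 * κ) ^ M := by
          rw [← Real.exp_nat_mul, ← Real.exp_nat_mul]
          congr 1
          push_cast
          ring
        rw [h1, hq, mul_pow, div_pow]
        field_simp
    _ < 1 * 2 ^ M := mul_lt_mul_of_pos_right h12 h2M
    _ = 2 ^ M := one_mul _

/-- **Main theorem.** -/
theorem result :
    (∀ (r : ℕ), 1 ≤ r → ∀ (m : Fin r → ℕ), (∀ i, 1 ≤ m i) → ∀ (e : ℕ), 1 ≤ e →
      ∀ (K : Set (Space m e)) (o : Space m e) (ρ : Fin r → ℝ), (∀ i, 1 ≤ ρ i) →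
      RoundBody K o ρ →
        (∀ (D : ∀ i, Finset (EuclideanSpace ℝ (Fin (m i)))) (c : Fin r → ℝ),
          (∀ i, 0 < c i ∧ c i ≤ 1 ∧ Net (c i) (D i) ∧ ρ i ^ 2 * (1 - c i ^ 2) < 1) →
            Bounds K o (∏ i, ((D i).card + 1))) ∧
        SmallRatios K o ρ) ∧
    (∀ ρ σ : ℝ, 1 ≤ ρ → ρ < σ → ∃ m₀ : ℕ, ∀ (r : ℕ), 1 ≤ r → ∀ (m : Fin r → ℕ) (e : ℕ), 1 ≤ e →
      (∀ i, m₀ ≤ m i) → ∀ (K : Set (Space m e)) (o : Space m e), RoundBody K o (fun _ => ρ) →
        Bounds K o ⌊σ ^ (∑ i, m i)⌋₊) ∧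
    (∀ ρ : ℝ, 1 ≤ ρ → ρ < 2 → ∃ κ > 0, ∃ m₀ : ℕ, ∀ (r : ℕ), 1 ≤ r → ∀ (m : Fin r → ℕ) (e : ℕ),
      1 ≤ e → (∀ i, m₀ ≤ m i) → ∀ (K : Set (Space m e)) (o : Space m e),
      RoundBody K o (fun _ => ρ) → (e : ℝ) ≤ Real.exp (κ * (∑ i, m i : ℕ)) →
        SeparatedBy K o (2 ^ (∑ i, m i + e) - 1)) ∧
    (∀ (r : ℕ) (m : Fin r → ℕ) (e : ℕ) (K : Set (Space m e)) (o : Space m e), Convex ℝ K →
      IsCompact K → ∀ (i : Fin r)
        (Γ : Set (EuclideanSpace ℝ (Fin (m i)) ≃ₗᵢ[ℝ] EuclideanSpace ℝ (Fin (m i)))) (ρ : ℝ),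
        0 < ρ → Turning ρ Γ → InvariantAt i Γ K o → NearlyRound K o i ρ) :=
  ⟨fun _ hr _ hm _ he _ _ _ hρ h => ⟨fun D c hc => main hr hm he hρ h D c hc le_rfl,
    small hr hm he hρ h⟩, fun _ _ h1 h2 => high h1 h2, fun _ h1 h2 => uncond h1 h2,
    fun _ _ _ _ _ h1 h2 _ _ _ h3 h4 h5 => round_of_invariant h1 h2 h3 h4 h5⟩

end Pool.Agent.Results.MP_5e7226_co.NearlyRoundH52
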